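import Pool.Agent.W292.NR.Stm
set_option autoImplicit false

/-!
Project NR, subtask NR-EDGER: the edge of a real variable.
-/

namespace Pool.Agent.W143.NR

open Finset Pool.Agent.W292.NR

/-- the direction as a function on the cells -/
def Dn (st : ℕ → ℕ) (v : ℕ → Bool) (t w : ℕ) : ℚ :=
  if st w = st t ∧ t ≤ w then
    if w = t then ((sgn (v t) : ℤ) : ℚ)
    else if v w then -2 * ((∏ x ∈ Ico t w, sgn (v x) : ℤ) : ℚ) else 0
  else 0

theorem dirR_false (k : ℕ) (st : ℕ → ℕ) (v : ℕ → Bool) (t w : Fin k) :
    dirR k st v t (w, false) = Dn st v t w := by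
  unfold dirR Dn
  simp only [true_and, Fin.le_def, Fin.ext_iff]

theorem dirR_true (k : ℕ) (st : ℕ → ℕ) (v : ℕ → Bool) (t w : Fin k) :
    dirR k st v t (w, true) = 0 := by
  unfold dirR
  simp

theorem Dn_self (st : ℕ → ℕ) (v : ℕ → Bool) (t : ℕ) : Dn st v t t = ((sgn (v t) : ℤ) : ℚ) := by
  unfold Dn
  simp

theorem Dn_lt (st : ℕ → ℕ) (v : ℕ → Bool) {t w : ℕ} (h : w < t) : Dn st v t w = 0 := by
  unfold Dn
  rw [if_neg]
  rintro ⟨_, h2⟩
  omega

theorem Dn_ne (st : ℕ → ℕ) (v : ℕ → Bool) {t w : ℕ} (h : st w ≠ st t) : Dn st v t w = 0 := by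
  unfold Dn
  rw [if_neg]
  rintro ⟨h1, _⟩
  exact h h1

theorem Dn_gt (st : ℕ → ℕ) (v : ℕ → Bool) {t w : ℕ} (h : t < w) (hs : st w = st t) :
    Dn st v t w = if v w then -2 * ((∏ x ∈ Ico t w, sgn (v x) : ℤ) : ℚ) else 0 := by
  unfold Dn
  rw [if_pos ⟨hs, h.le⟩, if_neg (by omega)]

/-- partial sums -/
theorem part (st : ℕ → ℕ) (v : ℕ → Bool) (t : ℕ) : ∀ m, t + 1 ≤ m →
    (∀ w, t ≤ w → w < m → st w = st t) →
    ∑ w ∈ Ico t m, Dn st v t w = ((∏ x ∈ Ico t m, sgn (v x) : ℤ) : ℚ) := by
  intro m hm
  induction m, hm using Nat.le_induction with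
  | base =>
    intro _
    rw [Nat.Ico_succ_singleton, sum_singleton, prod_singleton, Dn_self]
  | succ m hm ih =>
    intro h
    rw [sum_Ico_succ_top (by omega), prod_Ico_succ_top (by omega),
      ih (fun w h1 h2 => h w h1 (by omega)), Dn_gt st v (by omega) (h m (by omega) (by omega))]
    cases v m
    · simp [sgn]
    · simp [sgn]
      ring

/-- the sum of a row, real variables -/
theorem row_sum (k : ℕ) (st : ℕ → ℕ) (v : ℕ → Bool) (t u : Fin k) (hst : st u ≤ u) :
    ∑ j : Fin k × Bool, (((chainLP k st).A (u, false) j : ℤ) : ℚ) * dirR k st v t j =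
      Dn st v t u + 2 * ∑ w ∈ Ico (st u) (u : ℕ), Dn st v t w := by
  rw [Fintype.sum_prod_type]
  have h1 : ∀ w : Fin k, ∑ y : Bool, (((chainLP k st).A (u, false) (w, y) : ℤ) : ℚ) *
      dirR k st v t (w, y) =
      (if (w : ℕ) = u then Dn st v t w else 0) +
        2 * (if (w : ℕ) ∈ Ico (st u) (u : ℕ) then Dn st v t w else 0) := by
    intro w
    rw [Fintype.sum_bool, dirR_true, dirR_false, mul_zero, zero_add]
    unfold chainLP
    simp only [mem_Ico]
    by_cases hw : w = u
    · subst hw
      simp
    · have hw' : (w : ℕ) ≠ u := fun h => hw (Fin.ext h)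
      rw [if_neg hw, if_neg hw']
      by_cases h2 : st u ≤ (w : ℕ) ∧ (w : ℕ) < u
      · have h3 : st u ≤ (w : ℕ) ∧ w < u := h2
        rw [if_pos h3, if_pos h2]
        push_cast
        ring
      · have h3 : ¬ (st u ≤ (w : ℕ) ∧ w < u) := h2
        rw [if_neg h3, if_neg h2]
        push_cast
        ring
  rw [sum_congr rfl fun w _ => h1 w, sum_add_distrib, ← mul_sum]
  congr 1
  · rw [← sum_range (fun w => if w = (u : ℕ) then Dn st v t w else 0), sum_ite_eq' (range k)]
    rw [if_pos (mem_range.2 u.2)]
  · congr 1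
    rw [← sum_range (fun w => if w ∈ Ico (st u) (u : ℕ) then Dn st v t w else 0), ← sum_filter]
    refine sum_congr ?_ fun _ _ => rfl
    ext w
    rw [mem_filter, mem_range, mem_Ico]
    have := u.2
    omega

theorem start_eq {k : ℕ} {st ln : ℕ → ℕ} (h : Chains k st ln) {t : ℕ} (ht : t < k) :
    st (st t) = st t ∧ ln (st t) = ln t :=
  h.same t ht (st t) le_rfl (by have := h.lt t ht; have := h.le t ht; omega)

theorem ln_eq {k : ℕ} {st ln : ℕ → ℕ} (h : Chains k st ln) {t u : ℕ} (ht : t < k) (hu : u < k)
    (hs : st u = st t) : ln u = ln t := by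
  have h1 := (start_eq h ht).2
  have h2 := (start_eq h hu).2
  rw [hs] at h2
  rw [← h2, h1]

/-- NR-EDGER -/
theorem edger : S_EDGER := by
  intro k st ln hC v t
  have htk := t.2
  have ht1 := hC.le t htk
  have ht2 := hC.lt t htk
  have ht3 := hC.top t htk
  have hin : ∀ w, st t ≤ w → w < st t + ln t → st w = st t := fun w h1 h2 =>
    (hC.same t htk w h1 h2).1
  refine ⟨fun u => ?_, fun u => ?_, ?_⟩
  · have huk := u.2
    have hu1 := hC.le u huk
    have hu2 := hC.lt u huk
    have hu3 := hC.top u huk
    have hinu : ∀ w, st u ≤ w → w < st u + ln u → st w = st u := fun w h1 h2 =>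
      (hC.same u huk w h1 h2).1
    unfold prim
    by_cases hv : v u = true
    · rw [if_pos hv]
      show -∑ j : Fin k × Bool, (((chainLP k st).A (u, false) j : ℤ) : ℚ) * dirR k st v t j = _
      rw [row_sum k st v t u hu1]
      by_cases hs : st u = st t
      · rcases lt_trichotomy (u : ℕ) (t : ℕ) with h | h | h
        · have hne : u ≠ t := fun e => by rw [e] at h; exact lt_irrefl _ h
          rw [if_neg hne, Dn_lt st v h, sum_eq_zero fun w hw => Dn_lt st v
            ((mem_Ico.1 hw).2.trans h)]
          simp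
        · have he : u = t := Fin.ext h
          subst he
          rw [if_pos rfl, Dn_self, sum_eq_zero fun w hw => Dn_lt st v (mem_Ico.1 hw).2, hv]
          simp [sgn]
        · have hne : u ≠ t := fun e => by rw [e] at h; exact lt_irrefl _ h
          rw [if_neg hne, Dn_gt st v h hs, if_pos hv]
          have h1 : ∑ w ∈ Ico (st u) (u : ℕ), Dn st v t w = ∑ w ∈ Ico (t : ℕ) (u : ℕ), Dn st v t w := by
            rw [← sum_Ico_consecutive (Dn st v t) (by omega : st u ≤ (t : ℕ)) h.le,
              sum_eq_zero (s := Ico (st u) (t : ℕ)) fun w hw => Dn_lt st v (mem_Ico.1 hw).2,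
              zero_add]
          have h2 := part st v t u (by omega) (fun w h1 h2 => by
            rw [hinu w (by omega) (by omega), hs])
          rw [h1, h2]
          ring
      · have hne : u ≠ t := fun e => hs (by rw [e])
        rw [if_neg hne, Dn_ne st v hs, sum_eq_zero fun w hw => Dn_ne st v (by
          rw [mem_Ico] at hw
          rw [hinu w hw.1 (by omega)]
          exact hs)]
        simp
    · rw [if_neg hv]
      show dirR k st v t (u, false) = _
      rw [dirR_false]
      by_cases hut : u = t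
      · subst hut
        rw [if_pos rfl, Dn_self]
        have : v u = false := by simpa using hv
        rw [this]
        simp [sgn]
      · rw [if_neg hut]
        have hut' : (u : ℕ) ≠ t := fun h => hut (Fin.ext h)
        by_cases hs : st u = st t
        · rcases lt_or_gt_of_ne hut' with h | h
          · exact Dn_lt st v h
          · rw [Dn_gt st v h hs, if_neg hv]
        · exact Dn_ne st v hs
  · show dirR k st v t (u, true) = 0
    exact dirR_true k st v t u
  · show ∑ j : Fin k × Bool, (((chainLP k st).c j : ℤ) : ℚ) * dirR k st v t j = _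
    rw [Fintype.sum_prod_type]
    have h1 : ∀ w : Fin k, ∑ y : Bool, (((chainLP k st).c (w, y) : ℤ) : ℚ) *
        dirR k st v t (w, y) = Dn st v t w := by
      intro w
      rw [Fintype.sum_bool, dirR_true, dirR_false]
      unfold chainLP
      simp
    rw [sum_congr rfl fun w _ => h1 w, ← sum_range (fun w => Dn st v t w)]
    have h2 : ∑ w ∈ range k, Dn st v t w = ∑ w ∈ Ico (t : ℕ) (st t + ln t), Dn st v t w := by
      symm
      refine sum_subset (fun w hw => ?_) (fun w hw hw' => ?_)
      · rw [mem_Ico] at hw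
        rw [mem_range]
        omega
      · rw [mem_range] at hw
        rw [mem_Ico, not_and_or] at hw'
        by_cases hs : st w = st t
        · rcases hw' with h | h
          · exact Dn_lt st v (by omega)
          · exfalso
            have h3 := ln_eq hC htk hw hs
            have h4 := hC.lt w hw
            rw [hs, h3] at h4
            exact h h4
        · exact Dn_ne st v hs
    rw [h2, part st v t _ (by omega) (fun w h1 h2 => hin w (by omega) h2)]
    rfl

end Pool.Agent.W143.NR
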